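import Pool.Agent.H153.Bisect

/-!
MP_be493c_co. Every finite cubic graph with at most three triangles has a balanced 2-colouring in
which every monochromatic component is a path, on at most two vertices in one colour and on at
most three vertices in the other.
-/

set_option autoImplicit false

namespace Pool.Agent.Results.MP_be493c_co.TwoThreeBisection

open Pool.Agent.H153.Bisect

/-- Every finite cubic graph with at most three triangles has a balanced 2-colouring, with the
least number of monochromatic edges among all balanced 2-colourings, in which every monochromatic
component is a path, with at most two vertices in the first colour and at most three vertices in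
the second colour. -/
theorem result (V : Type) [Fintype V] [DecidableEq V] (G : SimpleGraph V) [DecidableRel G.Adj]
    (hG : G.IsRegularOfDegree 3) (htri : (G.cliqueFinset 3).card ≤ 3) :
    ∃ c : V → Bool,
      (Finset.univ.filter (fun v => c v = true)).card
        = (Finset.univ.filter (fun v => c v = false)).card ∧
      (∀ v : V, c v = false →
        {w : V | (G ⊓ SimpleGraph.fromRel (fun a b : V => c a = c b)).Reachable v w}.ncard ≤ 2) ∧
      (∀ v : V, c v = true →
        {w : V | (G ⊓ SimpleGraph.fromRel (fun a b : V => c a = c b)).Reachable v w}.ncard ≤ 3) ∧
      (∀ v : V, (Finset.univ.filter (fun u => G.Adj v u ∧ c u = c v)).card ≤ 2) ∧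
      (G ⊓ SimpleGraph.fromRel (fun a b : V => c a = c b)).IsAcyclic ∧
      (∀ c' : V → Bool, (Finset.univ.filter (fun v => c' v = true)).card
          = (Finset.univ.filter (fun v => c' v = false)).card →
        (Finset.univ.filter (fun p : V × V => G.Adj p.1 p.2 ∧ c p.2 = c p.1)).card ≤
        (Finset.univ.filter (fun p : V × V => G.Adj p.1 p.2 ∧ c' p.2 = c' p.1)).card) := by
  obtain ⟨c, hD, hM, g1, g2, g3, g4⟩ := final G hG htri
  refine ⟨c, (D_zero c).1 hD, g1, g2, ?_, g4, ?_⟩
  · intro v
    have := g3 v
    rw [← card_Nb] at this
    exact_mod_cast this
  · intro c' hc'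
    have := hM c' ((D_zero c').2 hc')
    rw [M_card, M_card] at this
    exact_mod_cast this

end Pool.Agent.Results.MP_be493c_co.TwoThreeBisection
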